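import Pool.Agent.NH39.CG.Front
import Pool.Agent.H813R2.CS.Main

/-!
# MP_3c0a64_an: assembly
-/

set_option autoImplicit false

open Finset MeasureTheory

namespace Pool.Agent.NH39.CG

open H813.CS

theorem ma_all : S_MA := by
  have E : EL := ⟨t_nonneg, t_congr, t_mono, t_cond, t_chain, t_card,
    t_near t_chain t_mono t_card t_congr, t_fib, t_smul⟩
  have hbl := t_BL (t_D3 (t_D2 (t_D2a t_D1) E) E) E
  have hgeo := t_GEO t_DIG
  have hinfo := t_INFO t_DIG E
  have hchain := t_CHAIN t_DIG E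
  have hs3 := t_S3 (t_STG hbl t_DIG hgeo t_NODE E) hinfo hchain hgeo t_DIG t_NEST t_NODE E
  have hs1 := t_S1 hbl hinfo hchain hgeo t_DIG t_NEST E
  exact t_MA (t_MQ hs1 hs3 t_DEN t_NODE t_XI t_DIG E) t_CPL

theorem fes_all : S_FES := t_FES (t_FEC (t_M ma_all) t_COV (t_MUC t_DIG t_XI))

theorem core_all : S_CORE := core ma_all (t_MUC t_DIG t_XI)

/-- the dimension, for a set of centres of positive outer measure -/
theorem dim_one (B E : Set ℝ) (hE : volume E ≠ 0)
    (hB : ∀ x ∈ E, ∃ r : ℝ, 0 < r ∧ ∀ c ∈ cantorSet, x + r * (c - 1 / 2) ∈ B) : dimH B = 1 := by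
  apply le_antisymm
  · calc dimH B ≤ dimH (Set.univ : Set ℝ) := dimH_mono (Set.subset_univ _)
      _ = 1 := Real.dimH_univ
  · obtain ⟨n, hn⟩ : ∃ n : ℕ, volume (E ∩ Set.Icc (-(n : ℝ)) n) ≠ 0 := by
      by_contra hcon
      push Not at hcon
      apply hE
      have hcover : E ⊆ ⋃ n : ℕ, E ∩ Set.Icc (-(n : ℝ)) n := by
        intro x hx
        obtain ⟨n, hn⟩ := exists_nat_ge |x|
        exact Set.mem_iUnion.2 ⟨n, hx, abs_le.1 hn⟩
      exact measure_mono_null hcover (measure_iUnion_null hcon)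
    have h := fes_all 1 E B (volume.restrict (Set.Icc (-(n : ℝ)) n)) 2 zero_le_one le_rfl
      inferInstance (by
        intro x ρ hρ
        refine (Measure.restrict_apply_le _ _).trans ?_
        rw [Real.volume_closedBall, Real.rpow_one])
      (by
        rw [Measure.restrict_apply' measurableSet_Icc]
        exact hn) hB
    have e : kap + (1 - kap) * 1 = 1 := by ring
    rw [e, ENNReal.ofReal_one] at h
    exact h

end Pool.Agent.NH39.CG
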