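import Pool.Agent.H813R2.CS.T_FEC

/-!
# MP_3c0a64_an: a quantitative form of the front end of `H813R2/CS`
The covering theorem for gauges `ρ ^ D exp (A (log (1 / ρ)) ^ (3 / 4))`.
-/

set_option autoImplicit false

open Finset MeasureTheory

namespace Pool.Agent.NH39.CG

open H813.CS H813.CS.FEC

/-- a lower bound for the exponential: `n (n + 1)² M ≤ exp (√n)`, `√n = x ^ 2`, `n = x ^ 4` -/
lemma exp_big4 {M x : ℝ} (hM : 0 < M) (hx1 : 1 ≤ x) (hx : 161280 * M ≤ x ^ 4) :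
    x ^ 4 * (x ^ 4 + 1) * M * (x ^ 4 + 1) ≤ Real.exp (x ^ 2) := by
  have h1 := Real.pow_div_factorial_le_exp (x ^ 2) (by positivity) 8
  have e : ((Nat.factorial 8 : ℕ) : ℝ) = 40320 := by norm_num [Nat.factorial]
  rw [e] at h1
  refine le_trans ?_ h1
  have hx4 : 1 ≤ x ^ 4 := one_le_pow₀ hx1
  rw [le_div_iff₀ (by norm_num)]
  have h2 : (x ^ 4 + 1) ≤ 2 * x ^ 4 := by linarith
  have h3 : (x ^ 4 + 1) * (x ^ 4 + 1) ≤ (2 * x ^ 4) * (2 * x ^ 4) :=
    mul_le_mul h2 h2 (by positivity) (by positivity)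
  have h0 : 0 ≤ x ^ 4 * M := by positivity
  calc x ^ 4 * (x ^ 4 + 1) * M * (x ^ 4 + 1) * 40320
      = (x ^ 4 * M) * ((x ^ 4 + 1) * (x ^ 4 + 1)) * 40320 := by ring
    _ ≤ (x ^ 4 * M) * ((2 * x ^ 4) * (2 * x ^ 4)) * 40320 := by
        have := mul_le_mul_of_nonneg_left h3 h0
        linarith
    _ = (x ^ 4) ^ 3 * (161280 * M) := by ring
    _ ≤ (x ^ 4) ^ 3 * x ^ 4 := mul_le_mul_of_nonneg_left hx (by positivity)
    _ = (x ^ 2) ^ 8 := by ring

/-- the core covering theorem -/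
def S_CORE : Prop := ∃ A : ℝ, 0 < A ∧ ∀ (s : ℝ) (C Y : Set ℝ) (r : ℝ → ℝ) (j0 : ℤ)
  (ν : Measure ℝ) (K : ℝ), 0 ≤ s → s ≤ 1 → IsFiniteMeasure ν →
  (∀ (x ρ : ℝ), 0 < ρ → ν (Metric.closedBall x ρ) ≤ ENNReal.ofReal (K * ρ ^ s)) → ν C ≠ 0 →
  (∀ c ∈ C, (j0 : ℝ) ≤ c ∧ c < j0 + 1) → (∀ c ∈ C, 1 ≤ r c ∧ r c < 2) →
  (∀ c ∈ C, ∀ x ∈ cantorSet, c + r c * (x - 1 / 2) ∈ Y) →
  ∃ N : ℕ, ∀ I : ℕ → Finset ℤ, (∀ j < N, I j = ∅) →
    (∀ j : ℕ, ((I j).card : ℝ) ≤
      (3 : ℝ) ^ ((kap + (1 - kap) * s) * j) * Real.exp (-(A * (j : ℝ) ^ (3 / 4 : ℝ)))) →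
    (∀ y ∈ Y, ∃ j : ℕ, ⌊(3 : ℝ) ^ j * y⌋ ∈ I j) → False

theorem core (hM : S_MA) (hU : S_MUC) : S_CORE := by
  classical
  obtain ⟨KM, hKM0, hMA⟩ := hM
  refine ⟨11 * KM + 2, by linarith, ?_⟩
  intro s C Y r j0 ν K hs0 hs1 hfin hF hνC hCj hr hY
  set D : ℝ := kap + (1 - kap) * s with hD
  set v := (ν C).toReal with hv
  have hCfin : ν C ≠ ⊤ := measure_ne_top _ _
  have hv0 : 0 < v := ENNReal.toReal_pos hνC hCfin
  have hK0 : 0 < K := by
    by_contra hK
    push Not at hK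
    have h1 : C ⊆ Metric.closedBall (j0 : ℝ) 1 := by
      intro c hc
      have := hCj c hc
      rw [Metric.mem_closedBall, Real.dist_eq, abs_le]
      constructor <;> linarith
    have h2 := (measure_mono h1).trans (hF j0 1 one_pos)
    rw [Real.one_rpow, mul_one, ENNReal.ofReal_of_nonpos hK] at h2
    exact hνC (le_antisymm h2 bot_le)
  set M : ℝ := max 1 (K / v) with hMdef
  have hM1 : 1 ≤ M := le_max_left _ _
  have hM2 : K / v ≤ M := le_max_right _ _
  have hM0 : 0 < M := by linarith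
  set N : ℕ := 2 + ⌈161280 * M⌉₊ with hN
  refine ⟨N, fun I hI0 hIc hIY => ?_⟩
  -- good levels
  set G : ℕ → Set ℝ := fun n => {c | c ∈ C ∧ ∃ S : Finset (Fin n → Bool),
    (2 : ℝ) ^ n / (n * (n + 1)) ≤ S.card ∧
    ∀ e ∈ S, ∃ i ∈ I n, |⌊(3 : ℝ) ^ n * (c - r c / 2) + r c * xi e n⌋ - i| ≤ 2} with hG
  have hcov : ∀ c ∈ C, ∃ n ≥ N, c ∈ G n := by
    intro c hc
    obtain ⟨n, hn, S, hS1, hS2⟩ := hU I N (c - r c / 2) (r c) (by omega) hI0 (hr c hc).1
      (hr c hc).2 (by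
        intro x hx
        have := hIY _ (hY c hc x hx)
        have e : c - r c / 2 + r c * x = c + r c * (x - 1 / 2) := by ring
        rw [e]
        exact this)
    exact ⟨n, hn, hc, S, hS1, hS2⟩
  obtain ⟨n, hnN, hn⟩ := pigeon ν C G N (by omega) hνC hcov
  rw [← hv] at hn
  have hn1 : 1 ≤ n := by omega
  have hnr : (1 : ℝ) ≤ n := by exact_mod_cast hn1
  have hn_pos : (0 : ℝ) < n := by linarith
  -- the numerical conditions
  have hNr : (N : ℝ) ≤ n := by exact_mod_cast hnN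
  have hNr' : (N : ℝ) = 2 + (⌈161280 * M⌉₊ : ℝ) := by
    rw [hN]; push_cast; ring
  have hc1 : 161280 * M ≤ n := by
    have h1 := Nat.le_ceil (161280 * M)
    linarith
  obtain ⟨x, hx⟩ : ∃ x : ℝ, x = (n : ℝ) ^ (1 / 4 : ℝ) := ⟨_, rfl⟩
  have hx1 : 1 ≤ x := by
    rw [hx]
    exact Real.one_le_rpow hnr (by norm_num)
  have hx4 : x ^ 4 = n := by
    rw [hx, ← Real.rpow_natCast, ← Real.rpow_mul hn_pos.le]
    norm_num
  have hx3 : x ^ 3 = (n : ℝ) ^ (3 / 4 : ℝ) := by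
    rw [hx, ← Real.rpow_natCast, ← Real.rpow_mul hn_pos.le]
    norm_num
  have hexp := exp_big4 hM0 hx1 (by rw [hx4]; exact hc1)
  rw [hx4] at hexp
  set t : ℝ := Real.log (n * (n + 1) * M) with ht
  have hnn : (0 : ℝ) < n * (n + 1) * M := by positivity
  have hnn1 : 1 ≤ (n : ℝ) * (n + 1) * M := by
    have h1 : 1 ≤ (n : ℝ) * (n + 1) := by nlinarith
    nlinarith
  have het : Real.exp t = n * (n + 1) * M := by rw [ht, Real.exp_log hnn]
  have ht0 : 0 ≤ t := Real.log_nonneg hnn1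
  have htx : t + Real.log (n + 1) ≤ x ^ 2 := by
    rw [← Real.exp_le_exp, Real.exp_add, het, Real.exp_log (by positivity)]
    exact hexp
  -- the finite set of cells
  set Ks : Finset ℤ := (Finset.Icc (3 ^ n * j0) (3 ^ n * (j0 + 1))).filter
    (fun k => ∃ c ∈ G n, ⌊(3 : ℝ) ^ n * c⌋ = k) with hKs
  have hKs1 : ∀ a : ↥Ks, ∃ c ∈ G n, ⌊(3 : ℝ) ^ n * c⌋ = (a : ℤ) := by
    intro a
    exact (Finset.mem_filter.mp a.2).2
  choose rep hrepG hrepf using hKs1
  have hKs2 : ∀ c ∈ G n, ⌊(3 : ℝ) ^ n * c⌋ ∈ Ks := by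
    intro c hc
    rw [hKs, Finset.mem_filter, Finset.mem_Icc]
    have h1 := hCj c hc.1
    have h3 : (0 : ℝ) < 3 ^ n := by positivity
    refine ⟨⟨?_, ?_⟩, c, hc, rfl⟩
    · apply Int.le_floor.mpr
      push_cast
      exact mul_le_mul_of_nonneg_left h1.1 h3.le
    · apply le_of_lt
      apply Int.floor_lt.mpr
      push_cast
      exact mul_lt_mul_of_pos_left h1.2 h3
  have hSex : ∀ a : ↥Ks, ∃ S : Finset (Fin n → Bool), (2 : ℝ) ^ n / (n * (n + 1)) ≤ S.card ∧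
    ∀ e ∈ S, ∃ i ∈ I n, |⌊(3 : ℝ) ^ n * (rep a - r (rep a) / 2) + r (rep a) * xi e n⌋ - i| ≤ 2 :=
    fun a => (hrepG a).2
  choose S hS1 hS2 using hSex
  have hSpos : ∀ a, (0 : ℝ) < ((S a).card : ℝ) := by
    intro a
    have : (0 : ℝ) < 2 ^ n / (n * (n + 1)) := by positivity
    exact this.trans_le (hS1 a)
  set μ : ↥Ks → ℝ := fun a => (ν (cell n a)).toReal with hμ
  have hμ0 : ∀ a, 0 ≤ μ a := fun a => ENNReal.toReal_nonneg
  set Z : ℝ := ∑ a, μ a with hZ
  have hsumset : ∀ T : Finset ↥Ks, ∑ a ∈ T, μ a = (ν (⋃ a ∈ T, cell n (a : ℤ))).toReal := by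
    intro T
    rw [measure_biUnion_finset]
    · rw [ENNReal.toReal_sum (fun a _ => measure_ne_top _ _)]
    · intro a _ b _ hab
      rw [Function.onFun, Set.disjoint_left]
      intro x hx hx'
      apply hab
      apply Subtype.ext
      have h1 : ⌊(3 : ℝ) ^ n * x⌋ = (a : ℤ) := hx
      have h2 : ⌊(3 : ℝ) ^ n * x⌋ = (b : ℤ) := hx'
      rw [← h1, h2]
    · intro a _
      exact cell_meas n a
  have hZG : (ν (G n)).toReal ≤ Z := by
    rw [hZ, hsumset]
    apply ENNReal.toReal_mono (measure_ne_top _ _)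
    apply measure_mono
    intro c hc
    simp only [Set.mem_iUnion]
    refine ⟨(⟨⌊(3 : ℝ) ^ n * c⌋, hKs2 c hc⟩ : ↥Ks), Finset.mem_univ _, ?_⟩
    show ⌊(3 : ℝ) ^ n * c⌋ = ⌊(3 : ℝ) ^ n * c⌋
    rfl
  have hZv : v / (n * (n + 1)) ≤ Z := hn.trans hZG
  have hZ0 : 0 < Z := lt_of_lt_of_le (by positivity) hZv
  -- the law on the cells
  have hyp : Hyp n s t (fun a : ↥Ks => μ a / Z) rep (fun a => r (rep a)) j0
      (fun p : ↥Ks × (Fin n → Bool) => if p.2 ∈ S p.1 then μ p.1 / Z / ((S p.1).card : ℝ) else 0)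
      ((I n).biUnion (fun i => Finset.Icc (i - 2) (i + 2))) := by
    refine ⟨⟨fun a => div_nonneg (hμ0 a) hZ0.le, ?_⟩, ?_, ?_, ?_, ⟨?_, ?_⟩, ?_, ?_⟩
    · rw [← Finset.sum_div, ← hZ, div_self hZ0.ne']
    · intro a
      have := hCj _ (hrepG a).1
      exact ⟨this.1, this.2.le⟩
    · intro a
      exact hr _ (hrepG a).1
    · intro m hm k
      rw [← Finset.sum_filter, ← Finset.sum_div, hsumset, div_le_iff₀ hZ0]
      have h1 : (⋃ a ∈ (Finset.univ.filter (fun a : ↥Ks => ⌊(3 : ℝ) ^ m * rep a⌋ = k)),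
          cell n (a : ℤ)) ⊆ Metric.closedBall ((k : ℝ) / 3 ^ m) (((3 : ℝ) ^ m)⁻¹) := by
        refine subset_trans ?_ (cell_ball m k)
        intro x hx
        simp only [Set.mem_iUnion] at hx
        obtain ⟨a, ha, hxa⟩ := hx
        have h2 : ⌊(3 : ℝ) ^ m * rep a⌋ = k := (Finset.mem_filter.mp ha).2
        have h3 : ⌊(3 : ℝ) ^ n * x⌋ = ⌊(3 : ℝ) ^ n * rep a⌋ := by
          rw [hrepf a]; exact hxa
        show ⌊(3 : ℝ) ^ m * x⌋ = k
        rw [floor_low hm h3, h2]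
      have h2 := (measure_mono h1).trans (hF _ (((3 : ℝ) ^ m)⁻¹) (by positivity))
      have h3 := ENNReal.toReal_mono ENNReal.ofReal_ne_top h2
      rw [ENNReal.toReal_ofReal (by positivity), pow_inv_rpow] at h3
      refine h3.trans ?_
      have h4 : (0 : ℝ) < 3 ^ (-(s * m)) := by positivity
      have h5 : K ≤ Real.exp t * Z := by
        rw [het]
        have h6 : K ≤ M * v := by rwa [div_le_iff₀ hv0] at hM2
        have h7 : v ≤ n * (n + 1) * Z := by
          rw [div_le_iff₀ (by positivity)] at hZv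
          linarith
        calc K ≤ M * v := h6
          _ ≤ M * (n * (n + 1) * Z) := mul_le_mul_of_nonneg_left h7 hM0.le
          _ = n * (n + 1) * M * Z := by ring
      calc K * 3 ^ (-(s * m)) ≤ (Real.exp t * Z) * 3 ^ (-(s * m)) :=
            mul_le_mul_of_nonneg_right h5 h4.le
        _ = Real.exp t * 3 ^ (-(s * m)) * Z := by ring
    · intro p
      dsimp only
      split_ifs
      · exact div_nonneg (div_nonneg (hμ0 _) hZ0.le) (Nat.cast_nonneg _)
      · exact le_rfl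
    · rw [Fintype.sum_prod_type]
      have h1 : ∀ a : ↥Ks, ∑ e : Fin n → Bool,
          (if e ∈ S a then μ a / Z / ((S a).card : ℝ) else 0) = μ a / Z := by
        intro a
        rw [Finset.sum_ite_mem, Finset.univ_inter, Finset.sum_const, nsmul_eq_mul]
        exact mul_div_cancel₀ _ (hSpos a).ne'
      simp only [h1]
      rw [← Finset.sum_div, ← hZ, div_self hZ0.ne']
    · intro a e
      dsimp only
      have h0 : 0 ≤ μ a / Z := div_nonneg (hμ0 a) hZ0.le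
      split_ifs
      · rw [div_le_div_iff₀ (hSpos a) (by positivity), het]
        have h1 := hS1 a
        rw [div_le_iff₀ (by positivity)] at h1
        have h2 : (2 : ℝ) ^ n ≤ (n * (n + 1) * M) * (S a).card := by
          have h3 : (0 : ℝ) < n * (n + 1) := by positivity
          calc (2 : ℝ) ^ n ≤ (S a).card * (n * (n + 1)) := h1
            _ ≤ (S a).card * (n * (n + 1)) * M :=
              le_mul_of_one_le_right (mul_nonneg (hSpos a).le h3.le) hM1
            _ = (n * (n + 1) * M) * (S a).card := by ring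
        calc μ a / Z * 2 ^ n ≤ μ a / Z * ((n * (n + 1) * M) * (S a).card) :=
              mul_le_mul_of_nonneg_left h2 h0
          _ = _ := by ring
      · positivity
    · intro a e hp
      dsimp only at hp
      split_ifs at hp with he
      · obtain ⟨i, hi, hi2⟩ := hS2 a e he
        rw [Finset.mem_biUnion]
        refine ⟨i, hi, ?_⟩
        rw [Finset.mem_Icc]
        rw [abs_le] at hi2
        constructor <;> linarith [hi2.1, hi2.2]
      · exact absurd hp (lt_irrefl _)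
  obtain ⟨L, hL⟩ : ∃ L : ℕ, L = ⌈x ^ 2⌉₊ + 1 := ⟨_, rfl⟩
  have hx0 : 0 < x := by linarith
  have hx2 : 1 ≤ x ^ 2 := one_le_pow₀ hx1
  have hLc : (L : ℝ) = (⌈x ^ 2⌉₊ : ℝ) + 1 := by rw [hL]; push_cast; ring
  have hL1 : x ^ 2 ≤ L := by
    have := Nat.le_ceil (x ^ 2)
    linarith
  have hL2 : (L : ℝ) ≤ 3 * x ^ 2 := by
    have := Nat.ceil_lt_add_one (a := x ^ 2) (by positivity)
    linarith
  have hL3 : 2 ≤ L := by
    have : 1 ≤ ⌈x ^ 2⌉₊ := Nat.one_le_ceil_iff.mpr (by positivity)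
    omega
  have hfinal := hMA n L s (1 / x) t ↥Ks (fun a => μ a / Z) rep (fun a => r (rep a)) j0 _ _ hyp
    hs0 hs1 ht0 hL3 (by positivity) (by rw [div_le_iff₀ hx0]; linarith)
  -- count
  have hcard : ((((I n).biUnion (fun i => Finset.Icc (i - 2) (i + 2))).card : ℕ) : ℝ) ≤
      5 * ((3 : ℝ) ^ (D * n) * Real.exp (-((11 * KM + 2) * (n : ℝ) ^ (3 / 4 : ℝ)))) := by
    have h1 : ((I n).biUnion (fun i => Finset.Icc (i - 2) (i + 2))).card ≤ (I n).card * 5 := by
      apply Finset.card_biUnion_le_card_mul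
      intro i _
      rw [Int.card_Icc]
      omega
    have h2 : ((((I n).biUnion (fun i => Finset.Icc (i - 2) (i + 2))).card : ℕ) : ℝ) ≤
        (I n).card * 5 := by exact_mod_cast h1
    have h3 := hIc n
    linarith
  have hV : 0 < ((I n).biUnion (fun i => Finset.Icc (i - 2) (i + 2))).card := by
    rw [Finset.card_pos]
    obtain ⟨-, -, -, -, hP, -, hPV⟩ := hyp
    obtain ⟨⟨a, e⟩, hx⟩ : ∃ p, 0 < (fun p : ↥Ks × (Fin n → Bool) =>
        if p.2 ∈ S p.1 then μ p.1 / Z / ((S p.1).card : ℝ) else 0) p := by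
      by_contra hcon
      push Not at hcon
      have h0 := Finset.sum_nonpos (s := Finset.univ) fun p (_ : p ∈ Finset.univ) => hcon p
      rw [hP.2] at h0
      linarith
    exact ⟨_, hPV a e hx⟩
  have hVR : (0:ℝ) < ((I n).biUnion (fun i => Finset.Icc (i - 2) (i + 2))).card := by
    exact_mod_cast hV
  have hlog : Real.log (((I n).biUnion (fun i => Finset.Icc (i - 2) (i + 2))).card : ℝ) ≤
      Real.log 5 + (D * n * Real.log 3 - (11 * KM + 2) * x ^ 3) := by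
    refine (Real.log_le_log hVR hcard).trans (le_of_eq ?_)
    rw [Real.log_mul (by norm_num) (by positivity), Real.log_mul (by positivity) (by positivity),
      Real.log_exp, Real.log_rpow (by norm_num), hx3]
    ring
  have h5 : Real.log 5 < 2 := by
    rw [Real.log_lt_iff_lt_exp (by norm_num)]
    have h1 := Real.exp_one_gt_d9
    have h2 : Real.exp 2 = Real.exp 1 * Real.exp 1 := by rw [← Real.exp_add]; norm_num
    rw [h2]
    nlinarith
  have e1 : 1 / x * (n : ℝ) = x ^ 3 := by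
    rw [← hx4]
    field_simp
  have e2 : (1 : ℝ) + 1 / (1 / x) = 1 + x := by rw [one_div_one_div]
  have e3 : (n : ℝ) / L ≤ x ^ 2 := by
    rw [div_le_iff₀ (by linarith), ← hx4]
    calc x ^ 4 = x ^ 2 * x ^ 2 := by ring
      _ ≤ x ^ 2 * L := mul_le_mul_of_nonneg_left hL1 (by positivity)
  rw [e1, e2] at hfinal
  have e4 : (1 + x) * (t + Real.log (n + 1) + n / L + L) ≤ 10 * x ^ 3 := by
    have h1 : t + Real.log (n + 1) + n / L + L ≤ 5 * x ^ 2 := by linarith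
    have h2 : 1 + x ≤ 2 * x := by linarith
    have h3 : 0 ≤ t + Real.log (n + 1) + n / L + L := by
      have : 0 ≤ Real.log ((n : ℝ) + 1) := Real.log_nonneg (by linarith)
      positivity
    calc (1 + x) * (t + Real.log (n + 1) + n / L + L) ≤ (2 * x) * (5 * x ^ 2) :=
          mul_le_mul h2 h1 h3 (by positivity)
      _ = 10 * x ^ 3 := by ring
  have e5 : KM * (x ^ 3 + (1 + x) * (t + Real.log (n + 1) + n / L + L)) ≤ KM * (11 * x ^ 3) :=
    mul_le_mul_of_nonneg_left (by linarith) hKM0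
  have hx3' : 1 ≤ x ^ 3 := one_le_pow₀ hx1
  have hDD : (kap + (1 - kap) * s) * (n : ℝ) * Real.log 3 = D * n * Real.log 3 := rfl
  nlinarith

end Pool.Agent.NH39.CG
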