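import Pool.Agent.NH39.CG.Core

/-!
# MP_3c0a64_an: gauge measures of sets containing a scaled Cantor set around many points
-/

set_option autoImplicit false

open Finset MeasureTheory

namespace Pool.Agent.NH39.CG

open H813.CS

/-- the gauge function `ρ exp (A (log (1 / ρ)) ^ (3 / 4))` -/
noncomputable def gau (A ρ : ℝ) : ℝ := ρ * Real.exp (A * Real.log (1 / ρ) ^ (3 / 4 : ℝ))

lemma gau_ge {A ρ : ℝ} (hA : 0 < A) (h0 : 0 < ρ) (h1 : ρ < 1) : ρ ≤ gau A ρ := by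
  unfold gau
  have h2 : 0 ≤ Real.log (1 / ρ) := Real.log_nonneg (by rw [le_div_iff₀ h0]; linarith)
  have h3 : 1 ≤ Real.exp (A * Real.log (1 / ρ) ^ (3 / 4 : ℝ)) := by
    apply Real.one_le_exp
    positivity
  nlinarith

lemma log3 : 1 < Real.log 3 := by
  rw [Real.lt_log_iff_exp_lt (by norm_num)]
  linarith [Real.exp_one_lt_d9]

/-- from covers by intervals to triadic covers -/
theorem tri {A lam : ℝ} (hA : 0 < A) (hlam : 0 < lam) (N : ℕ) : ∃ ε : ℝ, 0 < ε ∧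
    ∀ (B : Set ℝ) (a ρ : ℕ → ℝ), (∀ i, 0 < ρ i ∧ ρ i < 1) →
    (B ⊆ ⋃ i, Set.Icc (a i) (a i + ρ i)) → ∑' i, ENNReal.ofReal (gau A (ρ i)) < ENNReal.ofReal ε →
    ∃ I : ℕ → Finset ℤ, (∀ j < N, I j = ∅) ∧
      (∀ j : ℕ, ((I j).card : ℝ) ≤ (3 : ℝ) ^ j * Real.exp (-(A * (j : ℝ) ^ (3 / 4 : ℝ)))) ∧
      ∀ y ∈ {y : ℝ | lam * y ∈ B}, ∃ j : ℕ, ⌊(3 : ℝ) ^ j * y⌋ ∈ I j := by
  classical
  have hl3 := log3
  obtain ⟨J, hJ⟩ : ∃ J : ℕ, J = max N ⌈|Real.log lam| / (Real.log 3 - 1)⌉₊ := ⟨_, rfl⟩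
  have hJN : N ≤ J := by rw [hJ]; exact le_max_left _ _
  have hJl : |Real.log lam| / (Real.log 3 - 1) ≤ J := by
    have h1 := Nat.le_ceil (|Real.log lam| / (Real.log 3 - 1))
    have h2 : (⌈|Real.log lam| / (Real.log 3 - 1)⌉₊ : ℝ) ≤ J := by
      rw [hJ]; exact_mod_cast le_max_right _ _
    linarith
  refine ⟨min (lam / 6) (lam * (1 / 3) ^ (J + 1)), by positivity, ?_⟩
  intro B a ρ hρ hcov hsum
  set ε : ℝ := min (lam / 6) (lam * (1 / 3) ^ (J + 1)) with hε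
  have hε0 : 0 < ε := by positivity
  have hε1 : ε ≤ lam / 6 := min_le_left _ _
  have hε2 : ε ≤ lam * (1 / 3) ^ (J + 1) := min_le_right _ _
  have hg0 : ∀ i, 0 ≤ gau A (ρ i) := fun i => (hρ i).1.le.trans (gau_ge hA (hρ i).1 (hρ i).2)
  have F1 : ∀ F : Finset ℕ, ∑ i ∈ F, gau A (ρ i) < ε := by
    intro F
    have h1 := (ENNReal.sum_le_tsum F).trans_lt hsum
    rw [← ENNReal.ofReal_sum_of_nonneg fun i _ => hg0 i] at h1
    exact (ENNReal.ofReal_lt_ofReal_iff hε0).1 h1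
  have F3 : ∀ i, ρ i < ε := by
    intro i
    have := F1 {i}
    rw [Finset.sum_singleton] at this
    exact (gau_ge hA (hρ i).1 (hρ i).2).trans_lt this
  have F4 : ∀ i, ρ i / lam < (1 / 3) ^ (J + 1) := by
    intro i
    rw [div_lt_iff₀ hlam]
    linarith [F3 i]
  have F4' : ∀ i, ρ i / lam ≤ 1 := fun i =>
    (F4 i).le.trans (pow_le_one₀ (by norm_num) (by norm_num))
  have F5 : ∀ i, ∃ n : ℕ, (1 / 3 : ℝ) ^ (n + 1) < ρ i / lam ∧ ρ i / lam ≤ (1 / 3) ^ n := fun i =>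
    exists_nat_pow_near_of_lt_one (div_pos (hρ i).1 hlam) (F4' i) (by norm_num) (by norm_num)
  choose n hn1 hn2 using F5
  have hnJ : ∀ i, J < n i := by
    intro i
    by_contra hcon
    push Not at hcon
    have h1 := (hn1 i).trans (F4 i)
    have h2 : (1 / 3 : ℝ) ^ (J + 1) ≤ (1 / 3) ^ (n i + 1) :=
      pow_le_pow_of_le_one (by norm_num) (by norm_num) (by omega)
    linarith
  obtain ⟨w, hw⟩ : ∃ w : ℕ → ℝ, ∀ j, w j =
      lam * (1 / 3) ^ (j + 1) * Real.exp (A * (j : ℝ) ^ (3 / 4 : ℝ)) := ⟨_, fun j => rfl⟩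
  have hw0 : ∀ j, 0 < w j := by
    intro j
    rw [hw]
    positivity
  have F6 : ∀ i, w (n i) ≤ gau A (ρ i) := by
    intro i
    have h0 := (hρ i).1
    have h1 : lam * (1 / 3) ^ (n i + 1) ≤ ρ i := by
      have := (hn1 i).le
      rw [le_div_iff₀ hlam] at this
      linarith
    have h2 : ((n i : ℕ) : ℝ) ≤ Real.log (1 / ρ i) := by
      have h3 : Real.log (ρ i / lam) ≤ Real.log ((1 / 3) ^ n i) :=
        Real.log_le_log (div_pos h0 hlam) (hn2 i)
      rw [Real.log_div h0.ne' hlam.ne', Real.log_pow, one_div, Real.log_inv] at h3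
      rw [one_div, Real.log_inv]
      have h4 : |Real.log lam| ≤ (Real.log 3 - 1) * J := by
        rw [div_le_iff₀ (by linarith)] at hJl
        linarith
      have h5 : (J : ℝ) ≤ n i := by exact_mod_cast (hnJ i).le
      have h6 := le_abs_self (Real.log lam)
      have h7 : (Real.log 3 - 1) * J ≤ (Real.log 3 - 1) * n i :=
        mul_le_mul_of_nonneg_left h5 (by linarith)
      linarith
    rw [hw]
    unfold gau
    have h8 : Real.exp (A * ((n i : ℕ) : ℝ) ^ (3 / 4 : ℝ)) ≤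
        Real.exp (A * Real.log (1 / ρ i) ^ (3 / 4 : ℝ)) := by
      apply Real.exp_le_exp.2
      apply mul_le_mul_of_nonneg_left _ hA.le
      exact Real.rpow_le_rpow (Nat.cast_nonneg _) h2 (by norm_num)
    exact mul_le_mul h1 h8 (Real.exp_pos _).le h0.le
  have F7 : ∀ (j : ℕ) (F : Finset ℕ), (∀ i ∈ F, n i = j) → (F.card : ℝ) * w j < ε := by
    intro j F hF
    refine lt_of_le_of_lt ?_ (F1 F)
    rw [← nsmul_eq_mul]
    refine Finset.card_nsmul_le_sum F _ _ fun i hi => ?_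
    rw [← hF i hi]
    exact F6 i
  have hfin : ∀ j, {i | n i = j}.Finite := by
    intro j
    by_contra hinf
    obtain ⟨F, hF1, hF2⟩ := Set.Infinite.exists_subset_card_eq hinf (⌈ε / w j⌉₊)
    have h1 := F7 j F fun i hi => hF1 hi
    rw [hF2] at h1
    have h2 := Nat.le_ceil (ε / w j)
    rw [div_le_iff₀ (hw0 j)] at h2
    linarith
  refine ⟨fun j => (hfin j).toFinset.biUnion fun i =>
    {⌊(3 : ℝ) ^ j * (a i / lam)⌋, ⌊(3 : ℝ) ^ j * (a i / lam)⌋ + 1}, ?_, ?_, ?_⟩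
  · intro j hj
    refine Finset.eq_empty_of_forall_notMem fun x hx => ?_
    rw [Finset.mem_biUnion] at hx
    obtain ⟨i, hi, -⟩ := hx
    rw [Set.Finite.mem_toFinset] at hi
    have h1 : n i = j := hi
    have := hnJ i
    omega
  · intro j
    have h1 : ((hfin j).toFinset.biUnion fun i => ({⌊(3 : ℝ) ^ j * (a i / lam)⌋,
        ⌊(3 : ℝ) ^ j * (a i / lam)⌋ + 1} : Finset ℤ)).card ≤ (hfin j).toFinset.card * 2 :=
      Finset.card_biUnion_le_card_mul _ _ _ fun i _ => Finset.card_le_two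
    have h2 : (((hfin j).toFinset.biUnion fun i => ({⌊(3 : ℝ) ^ j * (a i / lam)⌋,
        ⌊(3 : ℝ) ^ j * (a i / lam)⌋ + 1} : Finset ℤ)).card : ℝ) ≤ (hfin j).toFinset.card * 2 := by
      exact_mod_cast h1
    refine h2.trans ?_
    have h3 := F7 j (hfin j).toFinset fun i hi => by
      rw [Set.Finite.mem_toFinset] at hi
      exact hi
    have h4 : ((hfin j).toFinset.card : ℝ) ≤ ε / w j := by
      rw [le_div_iff₀ (hw0 j)]
      exact h3.le
    have h5 : ε / w j * 2 ≤ (3 : ℝ) ^ j * Real.exp (-(A * (j : ℝ) ^ (3 / 4 : ℝ))) := by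
      rw [div_mul_eq_mul_div, div_le_iff₀ (hw0 j), hw]
      have h6 : (3 : ℝ) ^ j * Real.exp (-(A * (j : ℝ) ^ (3 / 4 : ℝ))) *
          (lam * (1 / 3) ^ (j + 1) * Real.exp (A * (j : ℝ) ^ (3 / 4 : ℝ))) =
          (3 ^ j * (1 / 3) ^ j) * (Real.exp (-(A * (j : ℝ) ^ (3 / 4 : ℝ))) *
            Real.exp (A * (j : ℝ) ^ (3 / 4 : ℝ))) * (lam / 3) := by
        rw [pow_succ]
        ring
      rw [h6, ← Real.exp_add, neg_add_cancel, Real.exp_zero, ← mul_pow]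
      norm_num
      linarith
    linarith
  · intro y hy
    have hy' : lam * y ∈ B := hy
    obtain ⟨i, hi⟩ := Set.mem_iUnion.1 (hcov hy')
    refine ⟨n i, ?_⟩
    rw [Finset.mem_biUnion]
    refine ⟨i, by rw [Set.Finite.mem_toFinset]; rfl, ?_⟩
    have h3 : (0 : ℝ) < 3 ^ n i := by positivity
    have h1 : a i / lam ≤ y := by
      rw [div_le_iff₀ hlam]
      linarith [hi.1]
    have h2 : y ≤ a i / lam + (1 / 3) ^ n i := by
      have h4 : y ≤ (a i + ρ i) / lam := by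
        rw [le_div_iff₀ hlam]
        linarith [hi.2]
      rw [add_div] at h4
      linarith [hn2 i]
    have h5 : (3 : ℝ) ^ n i * (a i / lam) ≤ 3 ^ n i * y := mul_le_mul_of_nonneg_left h1 h3.le
    have h6 : (3 : ℝ) ^ n i * y ≤ 3 ^ n i * (a i / lam) + 1 := by
      have h7 := mul_le_mul_of_nonneg_left h2 h3.le
      have h8 : (3 : ℝ) ^ n i * (1 / 3) ^ n i = 1 := by
        rw [← mul_pow]
        norm_num
      rw [mul_add, h8] at h7
      exact h7
    have h9 : ⌊(3 : ℝ) ^ n i * (a i / lam)⌋ ≤ ⌊(3 : ℝ) ^ n i * y⌋ := Int.floor_le_floor h5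
    have h10 : ⌊(3 : ℝ) ^ n i * y⌋ ≤ ⌊(3 : ℝ) ^ n i * (a i / lam)⌋ + 1 := by
      have := Int.floor_le_floor h6
      rwa [Int.floor_add_one] at this
    rw [Finset.mem_insert, Finset.mem_singleton]
    omega

/-- the measure with the gauge `gau A` is positive -/
theorem pos_gauge (hC : S_CORE) : ∃ A : ℝ, 0 < A ∧ ∀ B E : Set ℝ, volume E ≠ 0 →
    (∀ x ∈ E, ∃ r : ℝ, 0 < r ∧ ∀ c ∈ cantorSet, x + r * (c - 1 / 2) ∈ B) →
    ∃ ε : ℝ, 0 < ε ∧ ∀ a ρ : ℕ → ℝ, (∀ i, 0 < ρ i ∧ ρ i < 1) →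
      (B ⊆ ⋃ i, Set.Icc (a i) (a i + ρ i)) →
      ENNReal.ofReal ε ≤ ∑' i, ENNReal.ofReal (gau A (ρ i)) := by
  classical
  obtain ⟨A, hA, hcore⟩ := hC
  refine ⟨A, hA, ?_⟩
  intro B E hE hB
  choose! r hr0 hr using hB
  -- decomposition
  let P : ℤ × ℤ → Set ℝ := fun p => {c | c ∈ E ∧ (2 : ℝ) ^ p.1 ≤ r c ∧ r c < 2 * (2 : ℝ) ^ p.1 ∧
    (p.2 : ℝ) ≤ c / (2 : ℝ) ^ p.1 ∧ c / (2 : ℝ) ^ p.1 < p.2 + 1}
  have hcover : E ⊆ ⋃ p, P p := by
    intro c hc
    obtain ⟨k, hk1, hk2⟩ := exists_mem_Ico_zpow (hr0 c hc) (one_lt_two : (1 : ℝ) < 2)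
    refine Set.mem_iUnion.2 ⟨(k, ⌊c / (2 : ℝ) ^ k⌋), hc, hk1, ?_, Int.floor_le _,
      Int.lt_floor_add_one _⟩
    rw [zpow_add_one₀ (two_ne_zero)] at hk2
    linarith
  have hex : ∃ p, volume (P p) ≠ 0 := by
    by_contra hcon
    push Not at hcon
    exact hE (measure_mono_null hcover (measure_iUnion_null hcon))
  obtain ⟨⟨k, j⟩, hp⟩ := hex
  obtain ⟨lam, hlamdef⟩ : ∃ lam : ℝ, lam = (2 : ℝ) ^ k := ⟨_, rfl⟩
  have hlam : 0 < lam := by rw [hlamdef]; positivity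
  have hne : lam ≠ 0 := hlam.ne'
  have hP : ∀ c ∈ P (k, j), c ∈ E ∧ lam ≤ r c ∧ r c < 2 * lam ∧
      (j : ℝ) ≤ c / lam ∧ c / lam < j + 1 := by
    intro c hc
    rw [hlamdef]
    exact hc
  have hC' : ∀ c, lam * c ∈ P (k, j) → (j : ℝ) ≤ c ∧ c < j + 1 := by
    intro c hc
    have := hP _ hc
    rw [mul_div_cancel_left₀ c hne] at this
    exact this.2.2.2
  have hvol : volume {c : ℝ | lam * c ∈ P (k, j)} ≠ 0 := by
    have h1 := Real.volume_preimage_mul_left hne (P (k, j))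
    have h2 : (fun x => lam * x) ⁻¹' P (k, j) = {c : ℝ | lam * c ∈ P (k, j)} := rfl
    rw [h2] at h1
    rw [h1]
    refine mul_ne_zero ?_ hp
    rw [Ne, ENNReal.ofReal_eq_zero, not_le]
    positivity
  obtain ⟨N, hN⟩ := hcore 1 {c : ℝ | lam * c ∈ P (k, j)} {y : ℝ | lam * y ∈ B}
    (fun c => r (lam * c) / lam) j (volume.restrict (Set.Icc (j : ℝ) (j + 1))) 2 zero_le_one le_rfl
    inferInstance (by
      intro x ρ hρ
      refine (Measure.restrict_apply_le _ _).trans ?_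
      rw [Real.volume_closedBall, Real.rpow_one])
    (by
      rw [Measure.restrict_apply' measurableSet_Icc, Set.inter_eq_left.2]
      · exact hvol
      · intro c hc
        exact ⟨(hC' c hc).1, (hC' c hc).2.le⟩)
    (fun c hc => hC' c hc)
    (by
      intro c hc
      have := hP _ hc
      constructor
      · rw [le_div_iff₀ hlam, one_mul]
        exact this.2.1
      · rw [div_lt_iff₀ hlam]
        exact this.2.2.1)
    (by
      intro c hc x hx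
      have := hr (lam * c) (hP _ hc).1 x hx
      show lam * (c + r (lam * c) / lam * (x - 1 / 2)) ∈ B
      have h3 : lam * (c + r (lam * c) / lam * (x - 1 / 2)) =
          lam * c + r (lam * c) * (x - 1 / 2) := by
        field_simp
      rw [h3]
      exact this)
  obtain ⟨ε, hε, htri⟩ := tri hA hlam N
  refine ⟨ε, hε, fun a ρ hρ hcov => ?_⟩
  by_contra hcon
  push Not at hcon
  obtain ⟨I, hI1, hI2, hI3⟩ := htri B a ρ hρ hcov hcon
  refine hN I hI1 (fun j => ?_) hI3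
  have e : (kap + (1 - kap) * 1) * (j : ℝ) = (j : ℝ) := by ring
  rw [e, Real.rpow_natCast]
  exact hI2 j

end Pool.Agent.NH39.CG
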